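import Pool.Agent.CdebT.DihedralE

set_option autoImplicit false

/-!
# Products of two Chernikov groups, one residual inverted by an involution, the other a 2-group

Let `G = A B` (no other condition on `G`), `D ≤ A` and `E ≤ B` abelian subgroups of finite index
with the minimal condition on subgroups (so `A` and `B` are Chernikov groups). Suppose that some
involution of `G` inverts `D`, that `E` is a 2-group, and that one of the following holds:
`D` is quasicyclic or finite (all its proper subgroups are finite); `E` is quasicyclic or finite;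
every subgroup of `D` is normalized by `A` and every subgroup of `E` is normalized by `B`
(arbitrary ranks). Then `G` is a Chernikov group.
For instance, `A` may be any group with a locally dihedral subgroup of finite index (for any
prime), and `B` any Chernikov group whose finite residual is a 2-group.
-/

namespace Pool.Agent.Results.MP_cdeb25_al.InvertedProduct

theorem result :
    ∀ (G : Type) [Group G] (A B D E : Subgroup G),
      (∀ g : G, ∃ a ∈ A, ∃ b ∈ B, g = a * b) →
      D ≤ A → D.relIndex A ≠ 0 → E ≤ B → E.relIndex B ≠ 0 →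
      (∀ x ∈ D, ∀ y ∈ D, x * y = y * x) → (∀ x ∈ E, ∀ y ∈ E, x * y = y * x) →
      WellFoundedLT (Subgroup ↥D) → WellFoundedLT (Subgroup ↥E) →
      (∃ i : G, i * i = 1 ∧ ∀ d ∈ D, i * d * i = d⁻¹) →
      IsPGroup 2 ↥E →
      ((∀ P : Subgroup G, P < D → Finite ↥P) ∨ (∀ P : Subgroup G, P < E → Finite ↥P) ∨
        ((∀ a ∈ A, ∀ x ∈ D, a * x * a⁻¹ ∈ Subgroup.zpowers x) ∧
          ∀ b ∈ B, ∀ y ∈ E, b * y * b⁻¹ ∈ Subgroup.zpowers y)) →
      (∃ N : Subgroup G, N.Normal ∧ N.FiniteIndex ∧
          (∀ x y : ↥N, x * y = y * x) ∧ WellFoundedLT (Subgroup ↥N)) := by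
  rintro G _ A B D E hAB hDA hDi hEB hEi hDc hEc hDm hEm ⟨i, hii, hiD⟩ hE2 hcase
  obtain ⟨T, hT, hTn, hTf⟩ := Pool.Agent.CdebT.inverted_product hAB hDA hEB hDi hEi hDc hEc hDm hEm
    (fun y hy => by
      obtain ⟨k, hk⟩ := hE2 ⟨y, hy⟩
      exact ⟨k, congrArg Subtype.val hk⟩) hii hiD hcase
  refine ⟨T, hTn, hTf, ?_, hT.min⟩
  rintro ⟨x, hx⟩ ⟨y, hy⟩
  exact Subtype.ext (hT.comm x hx y hy)

end Pool.Agent.Results.MP_cdeb25_al.InvertedProduct
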