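import Pool.Agent.CdebT.Final

set_option autoImplicit false

/-!
# Products of two Chernikov groups with a suitable automorphism

Let `G = A B` be a product of two Chernikov groups (no other condition on `G`). Let `τ` be an
automorphism of `G` (for instance conjugation by an element of `A ∩ B`) which acts on a subgroup
`U` of finite index of `A` as a power automorphism of order `m` whose powers `τ ^ k`, `0 < k < m`,
have only finitely many fixed points in `U`, and in the same way with `l` on a subgroup `V` of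
finite index of `B`. If `m ≠ l`, or if `m = l` is even, then `G` is a Chernikov group.
This contains the cases `m = l = 2` (`τ` inverts `U` and `V`) and `l = 1` (`τ` fixes `V`
elementwise and acts on `U` as a power automorphism of prime order with finitely many fixed points).
-/

namespace Pool.Agent.Results.MP_cdeb25_al.PowerAutomorphism

theorem result :
    ∀ (G : Type) [Group G] (A B : Subgroup G),
      (∀ g : G, ∃ a ∈ A, ∃ b ∈ B, g = a * b) →
      (∃ N : Subgroup ↥A, N.Normal ∧ N.FiniteIndex ∧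
          (∀ x y : ↥N, x * y = y * x) ∧ WellFoundedLT (Subgroup ↥N)) →
      (∃ N : Subgroup ↥B, N.Normal ∧ N.FiniteIndex ∧
          (∀ x y : ↥N, x * y = y * x) ∧ WellFoundedLT (Subgroup ↥N)) →
      ∀ (τ : MulAut G) (m l : ℕ), 0 < m → 0 < l → (m ≠ l ∨ Even m) →
      ∀ (U V : Subgroup G),
      U ≤ A → U.relIndex A ≠ 0 →
      (∀ u ∈ U, τ u ∈ Subgroup.zpowers u) → (∀ u ∈ U, (τ ^ m) u = u) →
      (∀ k : ℕ, 0 < k → k < m → {u | u ∈ U ∧ (τ ^ k) u = u}.Finite) →
      V ≤ B → V.relIndex B ≠ 0 →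
      (∀ v ∈ V, τ v ∈ Subgroup.zpowers v) → (∀ v ∈ V, (τ ^ l) v = v) →
      (∀ k : ℕ, 0 < k → k < l → {v | v ∈ V ∧ (τ ^ k) v = v}.Finite) →
      (∃ N : Subgroup G, N.Normal ∧ N.FiniteIndex ∧
          (∀ x y : ↥N, x * y = y * x) ∧ WellFoundedLT (Subgroup ↥N)) := by
  intro G _ A B hAB hA hB τ m l hm hl hml U V hUA hUi hτU hUm hUf hVB hVi hτV hVl hVf
  obtain ⟨D, hD, hDA, hDi⟩ := Pool.Agent.CdebT.exists_tor_of_chernikov hA
  obtain ⟨E, hE, hEB, hEi⟩ := Pool.Agent.CdebT.exists_tor_of_chernikov hB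
  have hDU : D ≤ U := hD.le_of_relIndex hDA hUi
  have hEV : E ≤ V := hE.le_of_relIndex hEB hVi
  obtain ⟨T, hT, hTn, hTf⟩ :=
    Pool.Agent.CdebT.core hAB hD hE hDA hEB hDi hEi τ hm hl hml
      (fun d hd => hτU d (hDU hd)) (fun e he => hτV e (hEV he))
      (fun d hd => hUm d (hDU hd)) (fun e he => hVl e (hEV he))
      (fun k hk0 hk => (hUf k hk0 hk).subset (fun d hd => ⟨hDU hd.1, hd.2⟩))
      (fun k hk0 hk => (hVf k hk0 hk).subset (fun e he => ⟨hEV he.1, he.2⟩))
  refine ⟨T, hTn, hTf, ?_, hT.min⟩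
  rintro ⟨x, hx⟩ ⟨y, hy⟩
  exact Subtype.ext (hT.comm x hx y hy)

end Pool.Agent.Results.MP_cdeb25_al.PowerAutomorphism
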