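import Pool.Agent.Cdeb98.Main

set_option autoImplicit false

/-!
# Products of two Chernikov groups whose finite residuals are 2-groups

Let `G = A B`, where each of `A` and `B` has a normal abelian subgroup of finite index that is a
2-group with the minimal condition on subgroups (that is, `A` and `B` are Chernikov groups whose
finite residuals are 2-groups, of arbitrary rank). Then `G` has a normal abelian subgroup of
finite index that is a 2-group with the minimal condition; in particular `G` is a Chernikov group.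
No hypothesis is made on `G`, and no third factor is needed. It answers the question on
`G = AB = AC = BC` positively whenever the finite residuals of two of the three factors
are 2-groups.
-/

namespace Pool.Agent.Results.MP_cdeb25_al.TwoRadicalProduct

theorem result :
    ∀ (G : Type) [Group G] (A B : Subgroup G),
      (∀ g : G, ∃ a ∈ A, ∃ b ∈ B, g = a * b) →
      (∃ N : Subgroup ↥A, N.Normal ∧ N.FiniteIndex ∧
          (∀ x y : ↥N, x * y = y * x) ∧ WellFoundedLT (Subgroup ↥N) ∧ IsPGroup 2 ↥N) →
      (∃ N : Subgroup ↥B, N.Normal ∧ N.FiniteIndex ∧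
          (∀ x y : ↥N, x * y = y * x) ∧ WellFoundedLT (Subgroup ↥N) ∧ IsPGroup 2 ↥N) →
      (∃ N : Subgroup G, N.Normal ∧ N.FiniteIndex ∧
          (∀ x y : ↥N, x * y = y * x) ∧ WellFoundedLT (Subgroup ↥N) ∧ IsPGroup 2 ↥N) := by
  intro G _ A B hAB hA hB
  obtain ⟨D, hD, hDA, hDi⟩ := Pool.Agent.Cdeb98.exists_torus_of_chernikov hA
  obtain ⟨E, hE, hEB, hEi⟩ := Pool.Agent.Cdeb98.exists_torus_of_chernikov hB
  obtain ⟨T, hT, hTn, hTf⟩ :=
    Pool.Agent.Cdeb98.product_torus hAB hD hE hDA hEB hDi hEi
  refine ⟨T, hTn, hTf, ?_, hT.min, ?_⟩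
  · rintro ⟨x, hx⟩ ⟨y, hy⟩
    exact Subtype.ext (hT.comm x hx y hy)
  · rintro ⟨x, hx⟩
    obtain ⟨k, hk⟩ := hT.tors x hx
    exact ⟨k, Subtype.ext (by simpa using hk)⟩

end Pool.Agent.Results.MP_cdeb25_al.TwoRadicalProduct
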